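import Pool.Agent.H37.CNX.Stmts
import Pool.Agent.H99.CNX.XT1
import Pool.Agent.H63.CNX.XRD

/-! # Board `cnx`, row XT2 -/

set_option autoImplicit false

namespace Pool.CND

open Finset Polynomial

namespace XT2Aux

theorem natDegree_pow_sub {k : Type} [Field k] {p : ℕ} (hp : 2 ≤ p) (r : Polynomial k)
    (h1 : 1 ≤ r.natDegree) : (r ^ p - r).natDegree = p * r.natDegree := by
  have : (r ^ p - r).natDegree = (r ^ p).natDegree := by
    apply Polynomial.natDegree_sub_eq_left_of_natDegree_lt
    rw [Polynomial.natDegree_pow]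
    nlinarith
  rw [this, Polynomial.natDegree_pow]

end XT2Aux

open XT2Aux in
theorem xt2_thm : S_XT2 := by
  intro p d k _ _ _ e m α β g A hp hp2 hed he0 hA hd hm hpm hpm1 hβ hg
  have hpp := hp.two_le
  have hp3 : 3 ≤ p := by
    rcases Nat.lt_or_ge p 3 with h | h
    · exact absurd (by omega) hp2
    · exact h
  obtain ⟨hmon, hdeg, hder⟩ := XT1.addpol p d k e hp hed
  rw [← hA] at hmon hdeg hder
  have hmk : (m : k) ≠ 0 := fun h0 => hpm ((CharP.cast_eq_zero_iff k p m).1 h0)
  have hm1k : ((m + 1 : ℕ) : k) ≠ 0 := fun h0 => hpm1 ((CharP.cast_eq_zero_iff k p (m + 1)).1 h0)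
  obtain ⟨n, rfl⟩ : ∃ n, m = n + 1 := ⟨m - 1, by omega⟩
  rw [Nat.add_sub_cancel] at hg ⊢
  set l : k := -1 / (((n + 1 + 1 : ℕ) : k) * e 0) with hl
  have hle : l * ((n + 1 + 1 : ℕ) : k) * e 0 = -1 := by
    rw [hl]; field_simp
  obtain ⟨f, hf⟩ : ∃ f, f = Polynomial.C α * A ^ (n + 1) + Polynomial.C β *
    (Polynomial.X * A ^ (n + 1) + Polynomial.C l * A ^ (n + 1 + 1)) + g := ⟨_, rfl⟩
  rw [← hf]
  have hP : 1 ≤ p ^ d := Nat.one_le_pow _ _ (by omega)
  have hf' : derivative f = C (α * ((n + 1 : ℕ) : k) * e 0) * A ^ n +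
      C (β * ((n + 1 : ℕ) : k) * e 0) * (X * A ^ n) + derivative g := by
    rw [hf]
    simp only [derivative_add, derivative_mul, derivative_X, derivative_pow, hder, derivative_C,
      Nat.add_sub_cancel, one_mul, zero_mul, zero_add]
    have h1 : C l * (C (((n + 1 + 1 : ℕ) : ℕ) : k) * A ^ (n + 1) * C (e 0)) =
        - A ^ (n + 1) := by
      have : C l * (C (((n + 1 + 1 : ℕ) : ℕ) : k) * A ^ (n + 1) * C (e 0)) =
          C (l * ((n + 1 + 1 : ℕ) : k) * e 0) * A ^ (n + 1) := by
        rw [C_mul, C_mul]; ring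
      rw [this, hle, C_neg, C_1]; ring
    rw [h1, C_mul, C_mul, C_mul, C_mul]
    ring
  have hAn : (A ^ n).natDegree = p ^ d * n := by
    rw [hmon.natDegree_pow, hdeg, mul_comm]
  have hXA : ∀ j, (X * A ^ n).coeff (j + 1) = (A ^ n).coeff j := fun j => coeff_X_mul _ _
  have hcoef : (derivative f).coeff (p ^ d * n + 1) = β * ((n + 1 : ℕ) : k) * e 0 := by
    rw [hf', coeff_add, coeff_add, coeff_C_mul, coeff_C_mul, hXA, coeff_derivative,
      coeff_eq_zero_of_natDegree_lt (by omega : (A ^ n).natDegree < p ^ d * n + 1),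
      coeff_eq_zero_of_natDegree_lt (by omega : g.natDegree < p ^ d * n + 1 + 1)]
    have h9 : (A ^ n).coeff (p ^ d * n) = 1 := by
      have := (hmon.pow n).coeff_natDegree
      rwa [hAn] at this
    rw [h9]; ring
  have hhigh : ∀ j, p ^ d * n + 1 < j → (derivative f).coeff j = 0 := by
    intro j hj
    obtain ⟨i, rfl⟩ : ∃ i, j = i + 1 := ⟨j - 1, by omega⟩
    rw [hf', coeff_add, coeff_add, coeff_C_mul, coeff_C_mul, hXA, coeff_derivative,
      coeff_eq_zero_of_natDegree_lt (by omega : (A ^ n).natDegree < i + 1),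
      coeff_eq_zero_of_natDegree_lt (by omega : (A ^ n).natDegree < i),
      coeff_eq_zero_of_natDegree_lt (by omega : g.natDegree < i + 1 + 1)]
    ring
  have hfdeg : f.natDegree ≤ p ^ d * (n + 2) := by
    rw [hf]
    have a1 : (Polynomial.C α * A ^ (n + 1)).natDegree ≤ p ^ d * (n + 2) := by
      refine (natDegree_C_mul_le _ _).trans ?_
      rw [hmon.natDegree_pow, hdeg, mul_comm]
      exact Nat.mul_le_mul_left _ (by omega)
    have a2 : (Polynomial.X * A ^ (n + 1)).natDegree ≤ p ^ d * (n + 2) := by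
      refine natDegree_mul_le.trans ?_
      rw [hmon.natDegree_pow, hdeg, natDegree_X]
      nlinarith
    have a3 : (Polynomial.C l * A ^ (n + 1 + 1)).natDegree ≤ p ^ d * (n + 2) := by
      refine (natDegree_C_mul_le _ _).trans ?_
      rw [hmon.natDegree_pow, hdeg, mul_comm]
    have a4 : (Polynomial.C β * (Polynomial.X * A ^ (n + 1) +
        Polynomial.C l * A ^ (n + 1 + 1))).natDegree ≤ p ^ d * (n + 2) :=
      (natDegree_C_mul_le _ _).trans ((natDegree_add_le _ _).trans (max_le a2 a3))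
    have a5 : g.natDegree ≤ p ^ d * (n + 2) := by
      have : p ^ d * (n + 2) = p ^ d * n + p ^ d * 2 := by ring
      omega
    exact (natDegree_add_le _ _).trans (max_le ((natDegree_add_le _ _).trans (max_le a1 a4)) a5)
  -- the degree of `r`
  have hrdeg : ∀ r : Polynomial k, p * r.natDegree ≤ f.natDegree → r.natDegree ≤ p ^ d * n + 1 := by
    intro r hr
    by_contra hcon
    push Not at hcon
    have h1 : p * (p ^ d * n + 2) ≤ p ^ d * (n + 2) :=
      (Nat.mul_le_mul_left p (by omega : p ^ d * n + 2 ≤ r.natDegree)).trans (hr.trans hfdeg)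
    have h2 : 3 * (p ^ d * n + 2) ≤ p * (p ^ d * n + 2) := Nat.mul_le_mul_right _ hp3
    have h3 : p ^ d * (n + 2) = p ^ d * n + 2 * p ^ d := by ring
    have h4 : p ^ d * 1 ≤ p ^ d * n := Nat.mul_le_mul_left _ (by omega)
    omega
  have hpC : (Polynomial.C ((p : ℕ) : k) : Polynomial k) = 0 := by
    rw [CharP.cast_eq_zero k p, Polynomial.C_0]
  have hdr : ∀ r : Polynomial k, derivative (r ^ p - r) = - derivative r := by
    intro r
    rw [derivative_sub, derivative_pow, hpC, zero_mul, zero_mul, zero_sub]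
  have hrc : ∀ r : Polynomial k, r.natDegree ≤ p ^ d * n + 1 → ∀ j, p ^ d * n + 1 ≤ j →
      (derivative r).coeff j = 0 := by
    intro r hr j hj
    rw [coeff_derivative, coeff_eq_zero_of_natDegree_lt (by omega), zero_mul]
  have hne : β * ((n + 1 : ℕ) : k) * e 0 ≠ 0 := mul_ne_zero (mul_ne_zero hβ hmk) he0
  rcases xrd_thm p k f hp with ⟨r, hr⟩ | ⟨D, r, hD1, hDp, hD⟩
  · exfalso
    have h1 : p * r.natDegree ≤ f.natDegree := by
      rcases Nat.eq_zero_or_pos r.natDegree with h0 | h0
      · rw [h0, mul_zero]; exact Nat.zero_le _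
      · rw [hr, natDegree_pow_sub hpp r h0]
    have h2 := congrArg (fun P => (derivative P).coeff (p ^ d * n + 1)) hr
    simp only [hdr, coeff_neg] at h2
    rw [hcoef, hrc r (hrdeg r h1) _ le_rfl, neg_zero] at h2
    exact hne h2
  · refine ⟨r, ?_⟩
    have h1 : p * r.natDegree ≤ f.natDegree := by
      by_contra hcon
      push Not at hcon
      have h0 : 1 ≤ r.natDegree := by
        rcases Nat.eq_zero_or_pos r.natDegree with h0 | h0
        · rw [h0, mul_zero] at hcon; omega
        · exact h0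
      have h2 := natDegree_pow_sub hpp r h0
      have h3 : (f - (r ^ p - r)).natDegree = (r ^ p - r).natDegree :=
        natDegree_sub_eq_right_of_natDegree_lt (by rw [h2]; exact hcon)
      rw [h3, h2] at hD
      exact hDp ⟨_, hD.symm⟩
    have hr := hrc r (hrdeg r h1)
    have hc1 : (derivative (f - (r ^ p - r))).coeff (p ^ d * n + 1) = β * ((n + 1 : ℕ) : k) * e 0 := by
      rw [derivative_sub, hdr, coeff_sub, coeff_neg, hr _ le_rfl, hcoef, neg_zero, sub_zero]
    have hc2 : ∀ j, p ^ d * n + 1 < j → (derivative (f - (r ^ p - r))).coeff j = 0 := by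
      intro j hj
      rw [derivative_sub, hdr, coeff_sub, coeff_neg, hr _ hj.le, hhigh j hj, neg_zero, sub_zero]
    have hlow : p ^ d * n + 2 ≤ (f - (r ^ p - r)).natDegree := by
      by_contra hcon
      push Not at hcon
      rw [coeff_derivative, coeff_eq_zero_of_natDegree_lt hcon, zero_mul] at hc1
      exact hne hc1.symm
    refine le_antisymm ?_ hlow
    by_contra hcon
    push Not at hcon
    have hDk : (D : k) ≠ 0 := fun h0 => hDp ((CharP.cast_eq_zero_iff k p D).1 h0)
    have h5 := hc2 (D - 1) (by rw [hD] at hcon; omega)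
    rw [coeff_derivative] at h5
    have h6 : D - 1 + 1 = D := by omega
    have h7 : ((D - 1 : ℕ) : k) + 1 = (D : k) := by
      have h10 := congrArg (fun i : ℕ => (i : k)) h6
      simpa using h10
    rw [h7, h6] at h5
    have h8 : (f - (r ^ p - r)).coeff D ≠ 0 := by
      rw [← hD]
      have h9 : f - (r ^ p - r) ≠ 0 := by
        intro h0
        rw [h0, natDegree_zero] at hD
        omega
      exact leadingCoeff_ne_zero.mpr h9
    exact (mul_ne_zero h8 hDk) h5

end Pool.CND
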